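import Pool.Agent.helper55.FPZ.SpecK

set_option autoImplicit false

namespace Pool.Agent.FPZ

open Matrix Polynomial Pool.Agent.PL Pool.Agent.X4

theorem PT_aeval {σ : Type} (I : Set (MvPolynomial σ ℚ)) {K : Type} [Field K] [CharZero K]
    (φ : (MvPolynomial σ ℚ ⧸ Ideal.span I) →+* K) (f : MvPolynomial σ ℚ) :
    MvPolynomial.aeval (fun i => φ (Ideal.Quotient.mk (Ideal.span I) (MvPolynomial.X i))) f =
      φ (Ideal.Quotient.mk (Ideal.span I) f) := by
  have h : (MvPolynomial.aeval (R := ℚ)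
      (fun i => φ (Ideal.Quotient.mk (Ideal.span I) (MvPolynomial.X i)))).toRingHom =
      φ.comp (Ideal.Quotient.mk (Ideal.span I)) := by
    apply MvPolynomial.ringHom_ext
    · intro q
      have h1 : algebraMap ℚ K = (φ.comp (Ideal.Quotient.mk (Ideal.span I))).comp MvPolynomial.C :=
        Subsingleton.elim _ _
      have h2 : algebraMap ℚ K q = φ (Ideal.Quotient.mk (Ideal.span I) (MvPolynomial.C q)) :=
        DFunLike.congr_fun h1 q
      have h3 : MvPolynomial.aeval (R := ℚ)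
        (fun i => φ (Ideal.Quotient.mk (Ideal.span I) (MvPolynomial.X i))) (MvPolynomial.C q) =
          algebraMap ℚ K q := MvPolynomial.aeval_C _ _
      exact h3.trans h2
    · intro i
      simp
  exact DFunLike.congr_fun h f

theorem PT (hFB2 : FB2_stmt) : PT_stmt := by
  intro σ _ I S hS
  have : Algebra.FiniteType ℚ (MvPolynomial σ ℚ ⧸ Ideal.span I) :=
    Algebra.FiniteType.of_surjective (Ideal.Quotient.mkₐ ℚ (Ideal.span I))
      (Ideal.Quotient.mkₐ_surjective ℚ _)
  obtain ⟨L, _, _, H, hHfin, hH⟩ := hFB2 (MvPolynomial σ ℚ ⧸ Ideal.span I)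
    ((Ideal.Quotient.mk (Ideal.span I)) '' S) (by
      intro K _ _ φ s hs
      obtain ⟨f, hf, rfl⟩ := hs
      rw [← PT_aeval I φ f]
      refine hS K _ ?_ f hf
      intro g hg
      rw [PT_aeval I φ g, Ideal.Quotient.eq_zero_iff_mem.2 (Ideal.subset_span hg), map_zero])
  classical
  refine ⟨L, inferInstance, inferInstance, hHfin.toFinset.image (fun φ => fun i =>
    φ (Ideal.Quotient.mk (Ideal.span I) (MvPolynomial.X i))), ?_, ?_⟩
  · intro x hx f hf
    obtain ⟨φ, -, rfl⟩ := Finset.mem_image.1 hx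
    rw [PT_aeval I φ f, Ideal.Quotient.eq_zero_iff_mem.2 (Ideal.subset_span hf), map_zero]
  · intro F _ _ _ x hx
    have hker : ∀ f ∈ Ideal.span I, (MvPolynomial.aeval x : MvPolynomial σ ℚ →ₐ[ℚ] F).toRingHom f = 0 := by
      intro f hf
      have h1 : Ideal.span I ≤ RingHom.ker (MvPolynomial.aeval x : MvPolynomial σ ℚ →ₐ[ℚ] F).toRingHom := by
        rw [Ideal.span_le]
        intro g hg
        exact hx g hg
      exact h1 hf
    obtain ⟨φ, hφ, τ, hτ⟩ := hH F (Ideal.Quotient.lift (Ideal.span I)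
      (MvPolynomial.aeval x : MvPolynomial σ ℚ →ₐ[ℚ] F).toRingHom hker)
    refine ⟨_, Finset.mem_image.2 ⟨φ, hHfin.mem_toFinset.2 hφ, rfl⟩, τ, ?_⟩
    intro s hs
    have h2 := hτ _ (Set.mem_image_of_mem _ hs)
    rw [Ideal.Quotient.lift_mk] at h2
    rw [PT_aeval I φ s, ← h2]
    rfl

end Pool.Agent.FPZ
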